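import Pool.Agent.N662.FP.Stm3

set_option autoImplicit false

namespace Pool.Agent.N928.FN

open Pool.Agent.N662.FP

lemma disp {n : ℕ} {p : ℕ → ℤ × ℤ}
    (h : ∀ i < n, |(p (i + 1)).1 - (p i).1| + |(p (i + 1)).2 - (p i).2| = 1) :
    ∀ j ≤ n, |(p j).1 - (p 0).1| + |(p j).2 - (p 0).2| ≤ (j : ℤ) := by
  intro j
  induction j with
  | zero => intro _; simp
  | succ j ih =>
    intro hj
    have h1 := ih (by omega)
    have h2 := h j (by omega)
    have a1 : |(p (j + 1)).1 - (p 0).1| ≤ |(p (j + 1)).1 - (p j).1| + |(p j).1 - (p 0).1| :=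
      abs_sub_le _ _ _
    have a2 : |(p (j + 1)).2 - (p 0).2| ≤ |(p (j + 1)).2 - (p j).2| + |(p j).2 - (p 0).2| :=
      abs_sub_le _ _ _
    push_cast
    linarith

lemma Tm_mono {w : Sym2 (ℤ × ℤ) → ℝ} (hw : ∀ e, 0 ≤ w e) (p : ℕ → ℤ × ℤ) {k n : ℕ} (h : k ≤ n) :
    Tm w k p ≤ Tm w n p := by
  unfold Tm
  apply Finset.sum_le_sum_of_subset_of_nonneg
  · intro i hi
    rw [Finset.mem_range] at hi ⊢
    omega
  · intro i _ _
    exact hw _

lemma Tm_nonneg {w : Sym2 (ℤ × ℤ) → ℝ} (hw : ∀ e, 0 ≤ w e) (p : ℕ → ℤ × ℤ) (n : ℕ) :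
    0 ≤ Tm w n p := Finset.sum_nonneg (fun i _ => hw _)

theorem t_END : S_END := by
  intro μ C hC hμ w hw R k σ τ hσ hτ hA
  obtain ⟨x, y, n, p, ⟨p0, pn, hst, hsaw, hbox⟩, hT1, hT2⟩ := hA
  have hT0 := Tm_nonneg hw p n
  have h1 : C * (k : ℝ) ≤ C * max |(em (y - x)).1| |(em (y - x)).2| :=
    le_trans (by linarith) (hμ (em (y - x)))
  have h2 : (k : ℝ) ≤ max |(em (y - x)).1| |(em (y - x)).2| := le_of_mul_le_mul_left h1 hC
  have h3 := disp hst n le_rfl
  rw [p0, pn] at h3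
  have hkn : k ≤ n := by
    have e1 : |(em (y - x)).1| = ((|y.1 - x.1| : ℤ) : ℝ) := by
      simp [Pool.Agent.N662.FP.em]
    have e2 : |(em (y - x)).2| = ((|y.2 - x.2| : ℤ) : ℝ) := by
      simp [Pool.Agent.N662.FP.em]
    rw [e1, e2, le_max_iff] at h2
    have g1 := abs_nonneg (y.1 - x.1)
    have g2 := abs_nonneg (y.2 - x.2)
    rcases h2 with h2 | h2
    · have h4 : (k : ℤ) ≤ |y.1 - x.1| := by exact_mod_cast h2
      omega
    · have h4 : (k : ℤ) ≤ |y.2 - x.2| := by exact_mod_cast h2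
      omega
  refine ⟨x, ?_, p, p0, fun i hi => hst i (by omega), fun i hi j hj => hsaw i (by omega) j (by omega), ?_⟩
  · have := hbox 0 (Nat.zero_le _)
    rwa [p0] at this
  · exact (Tm_mono hw p hkn).trans (hT1.trans hτ)

theorem t_PT (h1 : S_GE) (h2 : S_SAW) : S_PT := by
  intro μ w hw R v s hs hR hD
  obtain ⟨hne, -, -, -⟩ := h1 w hw 0 v
  have hlt : sInf (PS w 0 v) < μ (em v) - s + 1 := by
    have : D w 0 v < μ (em v) - s + 1 := by linarith
    exact this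
  obtain ⟨t, ht, htl⟩ := exists_lt_of_csInf_lt hne hlt
  obtain ⟨n, p, p0, pn, hst, hsaw, hsum⟩ := h2 w hw 0 v t ht
  have hT : Tm w n p ≤ t := hsum
  by_cases hb : ∀ i ≤ n, p i ∈ Box R
  · left
    refine ⟨0, v, n, p, ⟨p0, pn, hst, hsaw, hb⟩, by linarith, ?_⟩
    rw [sub_zero]
    linarith
  · right
    push Not at hb
    obtain ⟨i, hi, hib⟩ := hb
    have h3 := disp hst i hi
    have hRi : R ≤ i := by
      by_contra hcon
      push Not at hcon
      apply hib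
      rw [p0] at h3
      simp only [Prod.fst_zero, Prod.snd_zero, sub_zero] at h3
      have g1 := abs_nonneg (p i).1
      have g2 := abs_nonneg (p i).2
      have b1 : |(p i).1| ≤ (R : ℤ) := by omega
      have b2 : |(p i).2| ≤ (R : ℤ) := by omega
      rw [abs_le] at b1 b2
      unfold Box
      rw [Finset.mem_product, Finset.mem_Icc, Finset.mem_Icc]
      exact ⟨b1, b2⟩
    refine ⟨p, p0, fun j hj => hst j (by omega), fun j hj l hl => hsaw j (by omega) l (by omega), ?_⟩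
    have h4 := Tm_mono hw p (show R ≤ n by omega)
    linarith

end Pool.Agent.N928.FN
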